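import Mathlib

/-!
# MP_19ad23_co: the strongly non-nested ordered Turán number exceeds `(k-1) n`

The ordered graph on `Fin 9` (labels `0, ..., 8`) with all `36` pairs except
`01, 02, 04, 05, 12, 14, 15, 24` has `28 = 3 * 9 + 1` edges and contains no strongly non-nested
`4`-matching.
-/

namespace Pool.Agent.Results.MP_19ad23_co.StronglyNonNested

/-- An ordered graph on `n` vertices, given by its set of edges `(x, y)`, `x < y`. -/
def IsOrderedGraph {n : ℕ} (G : Finset (Fin n × Fin n)) : Prop := ∀ e ∈ G, e.1 < e.2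

/-- The edges `e = xy` and `f = uv` have no common vertex. -/
def VertexDisjoint {n : ℕ} (e f : Fin n × Fin n) : Prop :=
  e.1 ≠ f.1 ∧ e.1 ≠ f.2 ∧ e.2 ≠ f.1 ∧ e.2 ≠ f.2

/-- The intervals of the edges `e` and `f` are disjoint. -/
def Separated {n : ℕ} (e f : Fin n × Fin n) : Prop := e.2 < f.1 ∨ f.2 < e.1

/-- One of the intervals of the edges `e` and `f` contains the other. -/
def Nested {n : ℕ} (e f : Fin n × Fin n) : Prop :=
  (e.1 ≤ f.1 ∧ f.2 ≤ e.2) ∨ (f.1 ≤ e.1 ∧ e.2 ≤ f.2)

/-- The edges `e` and `f` cross: they are neither separated nor nested. -/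
def Crossing {n : ℕ} (e f : Fin n × Fin n) : Prop := ¬ Separated e f ∧ ¬ Nested e f

/-- `M` is a `k`-matching of the ordered graph `G`. -/
def IsMatchingOf {n : ℕ} (k : ℕ) (M G : Finset (Fin n × Fin n)) : Prop :=
  M ⊆ G ∧ M.card = k ∧ ∀ e ∈ M, ∀ f ∈ M, e ≠ f → VertexDisjoint e f

/-- No two edges of `M` are nested. -/
def NonNested {n : ℕ} (M : Finset (Fin n × Fin n)) : Prop :=
  ∀ e ∈ M, ∀ f ∈ M, e ≠ f → ¬ Nested e f

/-- `M` can be partitioned into parts (the edges with the same value of `c`) so that two edges in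
the same part cross and two edges in different parts are separated. -/
def IsStronglyNonNested {n : ℕ} (M : Finset (Fin n × Fin n)) : Prop :=
  ∃ c : Fin n × Fin n → ℕ, ∀ e ∈ M, ∀ f ∈ M, e ≠ f →
    (c e = c f → Crossing e f) ∧ (c e ≠ c f → Separated e f)

/-- The largest number of edges of an ordered graph on `n` vertices without a non-nested
`k`-matching. -/
noncomputable def exNonNested (n k : ℕ) : ℕ :=
  sSup {m | ∃ G : Finset (Fin n × Fin n), IsOrderedGraph G ∧ G.card = m ∧
    ¬ ∃ M, IsMatchingOf k M G ∧ NonNested M}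

/-- The largest number of edges of an ordered graph on `n` vertices without a strongly non-nested
`k`-matching. -/
noncomputable def exStronglyNonNested (n k : ℕ) : ℕ :=
  sSup {m | ∃ G : Finset (Fin n × Fin n), IsOrderedGraph G ∧ G.card = m ∧
    ¬ ∃ M, IsMatchingOf k M G ∧ IsStronglyNonNested M}

/-- The eight missing pairs. -/
def miss : List (Fin 9 × Fin 9) :=
  [(0, 1), (0, 2), (0, 4), (0, 5), (1, 2), (1, 4), (1, 5), (2, 4)]

/-- The counterexample. -/
def G28 : Finset (Fin 9 × Fin 9) :=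
  Finset.univ.filter (fun e => e.1 < e.2 ∧ e ∉ miss)

theorem card_G28 : G28.card = 28 := by decide

/-- The edges of the counterexample as pairs of natural numbers. -/
def L28 : List (ℕ × ℕ) :=
  [(0, 3), (0, 6), (0, 7), (0, 8), (1, 3), (1, 6), (1, 7), (1, 8), (2, 3), (2, 5), (2, 6), (2, 7),
   (2, 8), (3, 4), (3, 5), (3, 6), (3, 7), (3, 8), (4, 5), (4, 6), (4, 7), (4, 8), (5, 6), (5, 7),
   (5, 8), (6, 7), (6, 8), (7, 8)]

theorem G28_mem : ∀ e ∈ G28, ((e.1 : ℕ), (e.2 : ℕ)) ∈ L28 := by decide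

/-- Crossing, as a Boolean function on pairs of natural numbers. -/
def cr (e f : ℕ × ℕ) : Bool :=
  (Nat.blt e.1 f.1 && Nat.blt f.1 e.2 && Nat.blt e.2 f.2) ||
    (Nat.blt f.1 e.1 && Nat.blt e.1 f.2 && Nat.blt f.2 e.2)

/-- Separated. -/
def sp (e f : ℕ × ℕ) : Bool := Nat.blt e.2 f.1 || Nat.blt f.2 e.1

/-- Crossing is transitive on the three edges. -/
def tr (e f g : ℕ × ℕ) : Bool :=
  (!(cr e f && cr f g) || cr e g) && (!(cr f e && cr e g) || cr f g) &&
    (!(cr e g && cr g f) || cr e f)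

/-- The search over all quadruples of edges, with pruning. -/
def search : Bool :=
  L28.all fun e => L28.all fun f => !(Nat.blt e.1 f.1 && (cr e f || sp e f)) ||
    L28.all fun g => !(Nat.blt f.1 g.1 && (cr e g || sp e g) && (cr f g || sp f g) && tr e f g) ||
      L28.all fun h => !(Nat.blt g.1 h.1 && (cr e h || sp e h) && (cr f h || sp f h) &&
        (cr g h || sp g h) && tr e f h && tr e g h && tr f g h)

theorem search_true : search = true := by decide +kernel

/-- The pair of natural numbers of an edge. -/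
def nv {n : ℕ} (e : Fin n × Fin n) : ℕ × ℕ := (e.1, e.2)

theorem cr_iff {n : ℕ} (e f : Fin n × Fin n) (he : e.1 < e.2) (hf : f.1 < f.2)
    (hd : VertexDisjoint e f) : cr (nv e) (nv f) = true ↔ Crossing e f := by
  obtain ⟨d1, d2, d3, d4⟩ := hd
  simp only [cr, nv, Crossing, Separated, Nested, Bool.or_eq_true, Bool.and_eq_true,
    Nat.blt_eq, Fin.lt_def, Fin.le_def, ne_eq, Fin.ext_iff] at *
  omega

theorem sp_of {n : ℕ} (e f : Fin n × Fin n) (h : Separated e f) : sp (nv e) (nv f) = true := by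
  simp only [sp, nv, Separated, Bool.or_eq_true, Nat.blt_eq, Fin.lt_def] at *
  exact h

theorem tr_of (a b c : ℕ) (e f g : ℕ × ℕ) (h1 : cr e f = true ↔ a = b)
    (h2 : cr e g = true ↔ a = c) (h3 : cr f g = true ↔ b = c) (h1' : cr f e = true ↔ a = b)
    (h3' : cr g f = true ↔ b = c) : tr e f g = true := by
  have e1 : cr e f = decide (a = b) := by
    by_cases h : a = b
    · rw [h1.2 h]; simp [h]
    · have : cr e f ≠ true := fun hh => h (h1.1 hh)
      simp [this, h]
  have e2 : cr e g = decide (a = c) := by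
    by_cases h : a = c
    · rw [h2.2 h]; simp [h]
    · have : cr e g ≠ true := fun hh => h (h2.1 hh)
      simp [this, h]
  have e3 : cr f g = decide (b = c) := by
    by_cases h : b = c
    · rw [h3.2 h]; simp [h]
    · have : cr f g ≠ true := fun hh => h (h3.1 hh)
      simp [this, h]
  have e1' : cr f e = decide (a = b) := by
    by_cases h : a = b
    · rw [h1'.2 h]; simp [h]
    · have : cr f e ≠ true := fun hh => h (h1'.1 hh)
      simp [this, h]
  have e3' : cr g f = decide (b = c) := by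
    by_cases h : b = c
    · rw [h3'.2 h]; simp [h]
    · have : cr g f ≠ true := fun hh => h (h3'.1 hh)
      simp [this, h]
  unfold tr
  rw [e1, e2, e3, e1', e3']
  by_cases h1 : a = b <;> by_cases h2 : a = c <;> by_cases h3 : b = c <;> simp_all

theorem search_spec (e f g h : ℕ × ℕ) (he : e ∈ L28) (hf : f ∈ L28) (hg : g ∈ L28) (hh : h ∈ L28)
    (o1 : e.1 < f.1) (o2 : f.1 < g.1) (o3 : g.1 < h.1)
    (q1 : (cr e f || sp e f) = true) (q2 : (cr e g || sp e g) = true)
    (q3 : (cr f g || sp f g) = true) (q4 : (cr e h || sp e h) = true)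
    (q5 : (cr f h || sp f h) = true) (q6 : (cr g h || sp g h) = true)
    (t1 : tr e f g = true) (t2 : tr e f h = true) (t3 : tr e g h = true)
    (t4 : tr f g h = true) : False := by
  have hs := search_true
  unfold search at hs
  have h1 := List.all_eq_true.1 hs e he
  have h2 := List.all_eq_true.1 h1 f hf
  have p1 : Nat.blt e.1 f.1 = true := by rw [Nat.blt_eq]; exact o1
  have p2 : Nat.blt f.1 g.1 = true := by rw [Nat.blt_eq]; exact o2
  have p3 : Nat.blt g.1 h.1 = true := by rw [Nat.blt_eq]; exact o3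
  rw [p1, q1] at h2
  simp only [Bool.and_self, Bool.not_true, Bool.false_or] at h2
  have h3 := List.all_eq_true.1 h2 g hg
  rw [p2, q2, q3, t1] at h3
  simp only [Bool.and_self, Bool.not_true, Bool.false_or] at h3
  have h4 := List.all_eq_true.1 h3 h hh
  rw [p3, q4, q5, q6, t2, t3, t4] at h4
  simp at h4

theorem G28_free : ¬ ∃ M, IsMatchingOf 4 M G28 ∧ IsStronglyNonNested M := by
  rintro ⟨M, ⟨hsub, hcard, hdis⟩, c, hc⟩
  have hlt : ∀ e ∈ M, e.1 < e.2 := fun e he => (Finset.mem_filter.1 (hsub he)).2.1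
  have hinj : Set.InjOn Prod.fst (M : Set (Fin 9 × Fin 9)) := by
    intro e he f hf hef
    by_contra hne
    exact (hdis e he f hf hne).1 hef
  have hcard2 : (M.image Prod.fst).card = 4 := by
    rw [Finset.card_image_of_injOn hinj, hcard]
  let emb := (M.image Prod.fst).orderEmbOfFin hcard2
  have hex : ∀ i : Fin 4, ∃ e ∈ M, e.1 = emb i := by
    intro i
    have := (M.image Prod.fst).orderEmbOfFin_mem hcard2 i
    obtain ⟨e, he, h⟩ := Finset.mem_image.1 this
    exact ⟨e, he, h⟩
  choose E hE1 hE2 using hex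
  have hord : ∀ i j : Fin 4, i < j → (E i).1 < (E j).1 := by
    intro i j hij
    rw [hE2, hE2]
    exact emb.strictMono hij
  have hne : ∀ i j : Fin 4, i < j → E i ≠ E j := by
    intro i j hij h
    have := hord i j hij
    rw [h] at this
    exact lt_irrefl _ this
  have hcr : ∀ i j : Fin 4, i ≠ j → (cr (nv (E i)) (nv (E j)) = true ↔ c (E i) = c (E j)) := by
    intro i j hij
    have hne' : E i ≠ E j := by
      rcases lt_or_gt_of_ne hij with h | h
      · exact hne i j h
      · exact fun hh => hne j i h hh.symm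
    rw [cr_iff _ _ (hlt _ (hE1 i)) (hlt _ (hE1 j)) (hdis _ (hE1 i) _ (hE1 j) hne')]
    constructor
    · intro h
      by_contra hcc
      exact h.1 ((hc _ (hE1 i) _ (hE1 j) hne').2 hcc)
    · intro h
      exact (hc _ (hE1 i) _ (hE1 j) hne').1 h
  have hq : ∀ i j : Fin 4, i < j →
      (cr (nv (E i)) (nv (E j)) || sp (nv (E i)) (nv (E j))) = true := by
    intro i j hij
    by_cases h : c (E i) = c (E j)
    · rw [(hcr i j (ne_of_lt hij)).2 h, Bool.true_or]
    · rw [sp_of _ _ ((hc _ (hE1 i) _ (hE1 j) (hne i j hij)).2 h), Bool.or_true]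
  have ht : ∀ i j k : Fin 4, i < j → j < k →
      tr (nv (E i)) (nv (E j)) (nv (E k)) = true := by
    intro i j k hij hjk
    refine tr_of (c (E i)) (c (E j)) (c (E k)) _ _ _ (hcr i j (ne_of_lt hij))
      (hcr i k (ne_of_lt (hij.trans hjk))) (hcr j k (ne_of_lt hjk)) ?_ ?_
    · rw [hcr j i (ne_of_gt hij)]
      exact eq_comm
    · rw [hcr k j (ne_of_gt hjk)]
      exact eq_comm
  have hmem : ∀ i : Fin 4, nv (E i) ∈ L28 := fun i => G28_mem _ (hsub (hE1 i))
  exact search_spec (nv (E 0)) (nv (E 1)) (nv (E 2)) (nv (E 3)) (hmem 0) (hmem 1) (hmem 2) (hmem 3)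
    (hord 0 1 (by decide)) (hord 1 2 (by decide)) (hord 2 3 (by decide))
    (hq 0 1 (by decide)) (hq 0 2 (by decide)) (hq 1 2 (by decide)) (hq 0 3 (by decide))
    (hq 1 3 (by decide)) (hq 2 3 (by decide)) (ht 0 1 2 (by decide) (by decide))
    (ht 0 1 3 (by decide) (by decide)) (ht 0 2 3 (by decide) (by decide))
    (ht 1 2 3 (by decide) (by decide))

theorem bound : 28 ≤ exStronglyNonNested 9 4 := by
  unfold exStronglyNonNested
  refine le_csSup ⟨Fintype.card (Fin 9 × Fin 9), ?_⟩ ?_
  · rintro m ⟨G, _, rfl, _⟩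
    exact Finset.card_le_univ G
  · exact ⟨G28, fun e he => (Finset.mem_filter.1 he).2.1, card_G28, G28_free⟩

/-- **Negative answer to Q1.** For `n = 9` and `k = 4` the strongly non-nested ordered Turán
number is at least `28 > (k - 1) n = 27`; hence the conjectured equality does not hold for all
`n ≥ 2 k`. -/
theorem result : 28 ≤ exStronglyNonNested 9 4 ∧
    ¬ ∀ n k : ℕ, 1 ≤ k → 2 * k ≤ n →
      exNonNested n k = (k - 1) * n ∧ exStronglyNonNested n k = (k - 1) * n := by
  refine ⟨bound, fun h => ?_⟩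
  have h1 := (h 9 4 (by norm_num) (by norm_num)).2
  have h2 := bound
  rw [h1] at h2
  norm_num at h2

end Pool.Agent.Results.MP_19ad23_co.StronglyNonNested
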